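import Mathlib

set_option autoImplicit false

namespace Pool.Agent.Results.MP_c1a6cd_co.TightCycleLinear

open Finset

/-- An `r`-graph on the vertex set `V`: a set of edges, each an `r`-element subset of `V`. -/
structure RGraph (r : ℕ) (V : Type) where
  /-- the edges -/
  edges : Set (Finset V)
  /-- every edge has exactly `r` vertices -/
  uniform : ∀ e ∈ edges, e.card = r

open Classical in
/-- `hom F H` is the number of maps `φ : V(F) → V(H)` sending every edge of `F` onto an edge
of `H`. -/
noncomputable def hom {r : ℕ} {V W : Type} (F : RGraph r V) (H : RGraph r W) : ℕ :=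
  Set.ncard {φ : V → W | ∀ e ∈ F.edges, e.image φ ∈ H.edges}

/-- The homomorphism density `t_F(H) = hom(F,H) / v(H)^{v(F)}`. -/
noncomputable def density {r : ℕ} {V W : Type} (F : RGraph r V) (H : RGraph r W) : ℝ :=
  (hom F H : ℝ) / (Nat.card W : ℝ) ^ Nat.card V

/-- The `r`-graph `K^{(r)}_r` with `r` vertices and one edge. -/
def singleEdge (r : ℕ) : RGraph r (Fin r) where
  edges := {Finset.univ}
  uniform := by
    intro e he
    rw [Set.mem_singleton_iff] at he
    simp [he]

/-- The set of `s ≥ 0` such that some (finite) `r`-graph `H` has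
`t_F(H) = t_{K^{(r)}_r}(H)^s > 0`. -/
def exponentSet {r : ℕ} {V : Type} (F : RGraph r V) : Set ℝ :=
  {s | 0 ≤ s ∧ ∃ (n : ℕ) (H : RGraph r (Fin n)),
    density F H = density (singleEdge r) H ^ s ∧ 0 < density F H}

/-- The Sidorenko exponent `s(F)`, the supremum (in the extended reals) of `exponentSet F`. -/
noncomputable def sidorenkoExponent {r : ℕ} {V : Type} (F : RGraph r V) : EReal :=
  sSup ((fun s : ℝ => (s : EReal)) '' exponentSet F)

open Classical in
/-- The tight cycle `C^{(r)}_{rℓ}`: its vertex set is `ℤ/rℓℤ` and its edges are the `r`-element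
sets `{i, i+1, …, i+r-1}`. (For `ℓ ≥ 1` each of these sets has `r` elements, see
`mem_tightCycle`.) -/
def tightCycle (r ℓ : ℕ) : RGraph r (ZMod (r * ℓ)) where
  edges := {e | e.card = r ∧
    ∃ i : ZMod (r * ℓ), e = (Finset.range r).image (fun j : ℕ => i + (j : ZMod (r * ℓ)))}
  uniform := fun e he => he.1

open Classical in
/-- Sanity check: for `r, ℓ ≥ 1` every window `{i, …, i+r-1}` is an edge of the tight cycle. -/
theorem mem_tightCycle (r ℓ : ℕ) (hr : 1 ≤ r) (hℓ : 1 ≤ ℓ) (i : ZMod (r * ℓ)) :
    (Finset.range r).image (fun j : ℕ => i + (j : ZMod (r * ℓ))) ∈ (tightCycle r ℓ).edges := by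
  refine ⟨?_, i, rfl⟩
  rw [Finset.card_image_of_injOn]
  · simp
  · intro a ha b hb hab
    simp only [Finset.coe_range, Set.mem_Iio] at ha hb
    have h : (a : ZMod (r * ℓ)) = (b : ZMod (r * ℓ)) := by simpa using hab
    rw [ZMod.natCast_eq_natCast_iff'] at h
    have hle : r ≤ r * ℓ := Nat.le_mul_of_pos_right r (by omega)
    rwa [Nat.mod_eq_of_lt (by omega), Nat.mod_eq_of_lt (by omega)] at h

/-- The image of a finset does not depend on the decidability instance used. -/
lemma image_inst {α β : Type} (i1 i2 : DecidableEq β) (f : α → β) (t : Finset α) :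
    @Finset.image α β i1 f t = @Finset.image α β i2 f t := by
  rw [Subsingleton.elim i1 i2]

/-! ### Averages -/

/-- The average of a real function over a finite type. -/
noncomputable def avg {X : Type} [Fintype X] (f : X → ℝ) : ℝ :=
  (∑ x, f x) / (Fintype.card X : ℝ)

lemma avg_nonneg {X : Type} [Fintype X] {f : X → ℝ} (hf : ∀ x, 0 ≤ f x) : 0 ≤ avg f := by
  unfold avg
  exact div_nonneg (Finset.sum_nonneg fun x _ => hf x) (Nat.cast_nonneg _)

lemma avg_mono {X : Type} [Fintype X] {f g : X → ℝ} (h : ∀ x, f x ≤ g x) : avg f ≤ avg g := by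
  unfold avg
  exact div_le_div_of_nonneg_right (Finset.sum_le_sum fun x _ => h x) (Nat.cast_nonneg _)

lemma avg_equiv {X Y : Type} [Fintype X] [Fintype Y] (e : X ≃ Y) (f : Y → ℝ) :
    avg (fun x => f (e x)) = avg f := by
  unfold avg
  rw [Equiv.sum_comp e f, Fintype.card_congr e]

lemma avg_prod {X Y : Type} [Fintype X] [Fintype Y] (f : X × Y → ℝ) :
    avg f = avg (fun x => avg (fun y => f (x, y))) := by
  unfold avg
  rw [Fintype.sum_prod_type, Fintype.card_prod, ← Finset.sum_div, div_div]
  push_cast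
  rw [mul_comm (Fintype.card X : ℝ)]

lemma avg_comm {X Y : Type} [Fintype X] [Fintype Y] (f : X → Y → ℝ) :
    avg (fun x => avg (fun y => f x y)) = avg (fun y => avg (fun x => f x y)) := by
  unfold avg
  rw [← Finset.sum_div, ← Finset.sum_div, Finset.sum_comm, div_div, div_div, mul_comm]

/-- Jensen's inequality for powers. -/
lemma pow_avg_le {X : Type} [Fintype X] [Nonempty X] {f : X → ℝ} (hf : ∀ x, 0 ≤ f x) (k : ℕ) :
    avg f ^ k ≤ avg (fun x => f x ^ k) := by
  have hc : (0 : ℝ) < (Fintype.card X : ℝ) := by exact_mod_cast Fintype.card_pos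
  have h := Real.pow_arith_mean_le_arith_mean_pow (Finset.univ : Finset X)
    (fun _ => 1 / (Fintype.card X : ℝ)) f (fun _ _ => by positivity)
    (by simp [Finset.card_univ, hc.ne']) (fun x _ => hf x) k
  unfold avg
  simp only [one_div, ← Finset.mul_sum] at h
  rw [div_eq_inv_mul, div_eq_inv_mul]
  exact h

/-- Averages over functions on `Fin (r+1)`. -/
lemma avg_cons {r : ℕ} {V : Type} [Fintype V] (f : (Fin (r + 1) → V) → ℝ) :
    avg f = avg (fun v : V => avg (fun x : Fin r → V => f (Fin.cons v x))) := by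
  rw [← avg_equiv (Fin.consEquiv (fun _ : Fin (r + 1) => V)) f, avg_prod]
  rfl

lemma avg_prod_pow {t : ℕ} {V : Type} [Fintype V] (h : V → ℝ) :
    avg (fun y : Fin t → V => ∏ i, h (y i)) = avg h ^ t := by
  unfold avg
  rw [div_pow, Fintype.card_fun, Fintype.card_fin]
  push_cast
  rw [Fintype.sum_pow]

/-- Iterated Jensen: the density of the `t`-fold blow-up. -/
lemma blowup {V : Type} [Fintype V] [Nonempty V] (t : ℕ) :
    ∀ (r : ℕ) (f : (Fin r → V) → ℝ), (∀ x, 0 ≤ f x) →
      avg f ^ (t ^ r) ≤
        avg (fun y : Fin r → (Fin t → V) => ∏ c : Fin r → Fin t, f (fun j => y j (c j))) := by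
  intro r
  induction r with
  | zero =>
    intro f hf
    have h1 : ∀ y : Fin 0 → (Fin t → V),
        (∏ c : Fin 0 → Fin t, f (fun j => y j (c j))) = f default := by
      intro y
      rw [Fintype.prod_unique]
      congr 1
      exact Subsingleton.elim _ _
    simp only [h1]
    unfold avg
    rw [Fintype.sum_unique]
    simp
  | succ r ih =>
    intro f hf
    -- the function with the copies of the first coordinate fixed
    let g : (Fin t → V) → (Fin r → V) → ℝ := fun y0 x => ∏ i, f (Fin.cons (y0 i) x)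
    have hg : ∀ y0 x, 0 ≤ g y0 x := fun y0 x => Finset.prod_nonneg fun i _ => hf _
    have key : avg (fun y : Fin (r + 1) → (Fin t → V) =>
          ∏ c : Fin (r + 1) → Fin t, f (fun j => y j (c j)))
        = avg (fun y0 : Fin t → V => avg (fun y' : Fin r → (Fin t → V) =>
            ∏ c : Fin r → Fin t, g y0 (fun j => y' j (c j)))) := by
      rw [avg_cons]
      congr 1
      funext y0
      congr 1
      funext y'
      rw [← Equiv.prod_comp (Fin.consEquiv (fun _ : Fin (r + 1) => Fin t)),
        Fintype.prod_prod_type_right]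
      refine Finset.prod_congr rfl fun c _ => ?_
      refine Finset.prod_congr rfl fun i _ => ?_
      congr 1
      funext j
      refine Fin.cases ?_ (fun j => ?_) j
      · simp [Fin.consEquiv]
      · simp [Fin.consEquiv]
    rw [key]
    calc avg f ^ (t ^ (r + 1))
        = (avg f ^ t) ^ (t ^ r) := by rw [← pow_mul, pow_succ, mul_comm]
      _ ≤ (avg (fun y0 : Fin t → V => avg (g y0))) ^ (t ^ r) := by
          refine pow_le_pow_left₀ (pow_nonneg (avg_nonneg hf) _) ?_ _
          rw [avg_cons, avg_comm, avg_comm (fun y0 x => g y0 x)]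
          refine (pow_avg_le (fun x => avg_nonneg fun v => hf _) t).trans ?_
          refine avg_mono fun x => ?_
          exact (avg_prod_pow (fun v => f (Fin.cons v x))).ge
      _ ≤ avg (fun y0 : Fin t → V => (avg (g y0)) ^ (t ^ r)) :=
          pow_avg_le (fun y0 => avg_nonneg (hg y0)) _
      _ ≤ _ := avg_mono fun y0 => ih (g y0) (hg y0)

/-! ### Symmetric nonnegative kernels -/

section Kernel

variable {X : Type} [Fintype X] [DecidableEq X]

lemma pow_nonneg_entry {S : Matrix X X ℝ} (hS : ∀ x y, 0 ≤ S x y) (k : ℕ) :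
    ∀ x y, 0 ≤ (S ^ k) x y := by
  induction k with
  | zero =>
    intro x y
    rw [pow_zero, Matrix.one_apply]
    split_ifs <;> norm_num
  | succ k ih =>
    intro x y
    rw [pow_succ, Matrix.mul_apply]
    exact Finset.sum_nonneg fun z _ => mul_nonneg (ih x z) (hS z y)

lemma mul_mono_entry {A B C D : Matrix X X ℝ} (hA : ∀ x y, 0 ≤ A x y) (hC : ∀ x y, 0 ≤ C x y)
    (hAB : ∀ x y, A x y ≤ B x y) (hCD : ∀ x y, C x y ≤ D x y) :
    ∀ x y, (A * C) x y ≤ (B * D) x y := by
  intro x y
  rw [Matrix.mul_apply, Matrix.mul_apply]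
  exact Finset.sum_le_sum fun z _ =>
    mul_le_mul (hAB x z) (hCD z y) (hC z y) ((hA x z).trans (hAB x z))

lemma pow_mono_entry {A B : Matrix X X ℝ} (hA : ∀ x y, 0 ≤ A x y)
    (hAB : ∀ x y, A x y ≤ B x y) (k : ℕ) : ∀ x y, (A ^ k) x y ≤ (B ^ k) x y := by
  induction k with
  | zero => intro x y; simp
  | succ k ih =>
    rw [pow_succ, pow_succ]
    exact mul_mono_entry (pow_nonneg_entry hA k) hA ih hAB

/-- number of weighted walks -/
noncomputable def walk (S : Matrix X X ℝ) (k : ℕ) : ℝ := ∑ x, ∑ y, (S ^ k) x y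

lemma walk_nonneg {S : Matrix X X ℝ} (hS : ∀ x y, 0 ≤ S x y) (k : ℕ) : 0 ≤ walk S k :=
  Finset.sum_nonneg fun x _ => Finset.sum_nonneg fun y _ => pow_nonneg_entry hS k x y

lemma pow_symm_entry {S : Matrix X X ℝ} (hsym : ∀ x y, S x y = S y x) (k : ℕ) :
    ∀ x y, (S ^ k) x y = (S ^ k) y x := by
  have hT : S.transpose = S := by
    ext x y
    exact hsym y x
  intro x y
  have : (S ^ k).transpose = S ^ k := by rw [Matrix.transpose_pow, hT]
  conv_lhs => rw [← this]
  rfl

lemma walk_add {S : Matrix X X ℝ} (hsym : ∀ x y, S x y = S y x) (i j : ℕ) :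
    walk S (i + j) = ∑ z, (∑ x, (S ^ i) z x) * (∑ y, (S ^ j) z y) := by
  unfold walk
  rw [pow_add]
  simp only [Matrix.mul_apply]
  calc ∑ x, ∑ y, ∑ z, (S ^ i) x z * (S ^ j) z y
      = ∑ x, ∑ z, ∑ y, (S ^ i) x z * (S ^ j) z y := by
        refine Finset.sum_congr rfl fun x _ => ?_
        rw [Finset.sum_comm]
    _ = ∑ z, ∑ x, ∑ y, (S ^ i) x z * (S ^ j) z y := by rw [Finset.sum_comm]
    _ = _ := by
        refine Finset.sum_congr rfl fun z _ => ?_
        rw [Finset.sum_mul_sum]
        refine Finset.sum_congr rfl fun x _ => ?_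
        refine Finset.sum_congr rfl fun y _ => ?_
        rw [pow_symm_entry hsym i x z]

lemma walk_sq_le {S : Matrix X X ℝ} (hsym : ∀ x y, S x y = S y x) (i j : ℕ) :
    walk S (i + j) ^ 2 ≤ walk S (i + i) * walk S (j + j) := by
  rw [walk_add hsym, walk_add hsym, walk_add hsym]
  have h := Finset.sum_mul_sq_le_sq_mul_sq (Finset.univ : Finset X)
    (fun z => ∑ x, (S ^ i) z x) (fun z => ∑ x, (S ^ j) z x)
  simpa [sq] using h

/-- `walk (2m) ≥ |X| (walk 1 / |X|)^{2m}` for a symmetric nonnegative matrix. -/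
lemma walk_even_ge [Nonempty X] {S : Matrix X X ℝ} (hS : ∀ x y, 0 ≤ S x y)
    (hsym : ∀ x y, S x y = S y x) (m : ℕ) :
    (Fintype.card X : ℝ) * (walk S 1 / (Fintype.card X : ℝ)) ^ (2 * m) ≤ walk S (2 * m) := by
  have hN : (0 : ℝ) < (Fintype.card X : ℝ) := by exact_mod_cast Fintype.card_pos
  have h0 : walk S 0 = (Fintype.card X : ℝ) := by
    unfold walk
    simp [Matrix.one_apply]
  set N : ℝ := (Fintype.card X : ℝ) with hNdef
  have h1 : walk S 1 ^ 2 ≤ N * walk S 2 := by
    have := walk_sq_le hsym 0 1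
    simpa [h0] using this
  rcases (walk_nonneg hS 1).eq_or_lt with h10 | h1pos
  · rcases Nat.eq_zero_or_pos m with hm | hm
    · subst hm
      simp [h0]
    · rw [← h10, zero_div, zero_pow (by omega), mul_zero]
      exact walk_nonneg hS _
  have h2pos : 0 < walk S 2 := by
    by_contra hcon
    have : walk S 2 = 0 := le_antisymm (not_lt.mp hcon) (walk_nonneg hS 2)
    rw [this] at h1
    nlinarith [sq_pos_of_pos h1pos]
  -- ratios are nondecreasing
  have hrat : ∀ j : ℕ, 0 < walk S (2 * j) ∧ walk S 2 * walk S (2 * j) ≤ N * walk S (2 * (j + 1)) := by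
    intro j
    induction j with
    | zero =>
      refine ⟨by simpa [h0] using hN, ?_⟩
      simp only [mul_zero, zero_add, mul_one, h0]
      rw [mul_comm]
    | succ j ih =>
      obtain ⟨hpos, hle⟩ := ih
      have hpos' : 0 < walk S (2 * (j + 1)) := by
        have : 0 < N * walk S (2 * (j + 1)) := lt_of_lt_of_le (mul_pos h2pos hpos) hle
        exact (mul_pos_iff_of_pos_left hN).mp this
      refine ⟨hpos', ?_⟩
      have hcs := walk_sq_le hsym j (j + 2)
      have e1 : j + (j + 2) = 2 * (j + 1) := by ring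
      have e2 : j + j = 2 * j := by ring
      have e3 : j + 2 + (j + 2) = 2 * (j + 1 + 1) := by ring
      rw [e1, e2, e3] at hcs
      -- walk2 * w_{j+1} ≤ N w_{j+2}
      by_contra hcon
      push Not at hcon
      have h3 : N * walk S (2 * (j + 1 + 1)) * walk S (2 * j) <
          walk S 2 * walk S (2 * (j + 1)) * walk S (2 * j) := mul_lt_mul_of_pos_right hcon hpos
      have h4 : walk S 2 * walk S (2 * (j + 1)) * walk S (2 * j) ≤
          N * walk S (2 * (j + 1)) * walk S (2 * (j + 1)) := by
        have := mul_le_mul_of_nonneg_right hle hpos'.le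
        nlinarith
      nlinarith
  have hmain : ∀ j : ℕ, N * (walk S 1 / N) ^ (2 * j) ≤ walk S (2 * j) := by
    intro j
    induction j with
    | zero => simp [h0]
    | succ j ih =>
      obtain ⟨hpos, hle⟩ := hrat j
      have hsq : (walk S 1 / N) ^ 2 ≤ walk S 2 / N := by
        rw [div_pow, div_le_div_iff₀ (by positivity) hN]
        nlinarith
      calc N * (walk S 1 / N) ^ (2 * (j + 1))
          = (walk S 1 / N) ^ 2 * (N * (walk S 1 / N) ^ (2 * j)) := by ring
        _ ≤ (walk S 2 / N) * walk S (2 * j) := by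
            refine mul_le_mul hsq ih (by positivity) (by positivity)
        _ ≤ walk S (2 * (j + 1)) := by
            rw [div_mul_eq_mul_div, div_le_iff₀ hN]
            linarith
  exact hmain m

/-- For a symmetric matrix, the trace of an even power is at least the average walk count. -/
lemma trace_even_ge [Nonempty X] {S : Matrix X X ℝ} (hsym : ∀ x y, S x y = S y x) (m : ℕ) :
    walk S (2 * m) / (Fintype.card X : ℝ) ≤ Matrix.trace (S ^ (2 * m)) := by
  have hN : (0 : ℝ) < (Fintype.card X : ℝ) := by exact_mod_cast Fintype.card_pos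
  have htr : Matrix.trace (S ^ (2 * m)) = ∑ x, ∑ y, (S ^ m) x y ^ 2 := by
    rw [Matrix.trace, two_mul, pow_add]
    refine Finset.sum_congr rfl fun x _ => ?_
    rw [Matrix.diag_apply, Matrix.mul_apply]
    refine Finset.sum_congr rfl fun y _ => ?_
    rw [pow_symm_entry hsym m y x, sq]
  rw [htr, div_le_iff₀ hN, two_mul, walk_add hsym, Finset.sum_mul]
  refine Finset.sum_le_sum fun x _ => ?_
  have h := Finset.sum_mul_sq_le_sq_mul_sq (Finset.univ : Finset X)
    (fun y => (S ^ m) x y) (fun _ => (1 : ℝ))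
  simp only [mul_one, one_pow, Finset.sum_const, Finset.card_univ, nsmul_eq_mul] at h
  nlinarith

/-- `tr(S^{2m}) ≥ (walk 1 / |X|)^{2m}`. -/
lemma trace_ge [Nonempty X] {S : Matrix X X ℝ} (hS : ∀ x y, 0 ≤ S x y)
    (hsym : ∀ x y, S x y = S y x) (m : ℕ) :
    (walk S 1 / (Fintype.card X : ℝ)) ^ (2 * m) ≤ Matrix.trace (S ^ (2 * m)) := by
  have hN : (0 : ℝ) < (Fintype.card X : ℝ) := by exact_mod_cast Fintype.card_pos
  refine le_trans ?_ (trace_even_ge hsym m)
  rw [le_div_iff₀ hN, mul_comm]
  exact walk_even_ge hS hsym m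

/-- Entries of powers of a `0/1` matrix as a sum over walks. -/
lemma pow_entry (A : Matrix X X ℝ) (L : ℕ) : ∀ u w : X,
    (A ^ L) u w = ∑ y : Fin (L + 1) → X,
      if y 0 = u ∧ y (Fin.last L) = w then ∏ i : Fin L, A (y i.castSucc) (y i.succ) else 0 := by
  induction L with
  | zero =>
    intro u w
    rw [pow_zero, Matrix.one_apply]
    rw [← (Equiv.funUnique (Fin 1) X).symm.sum_comp]
    simp only [Fin.last_zero, Finset.univ_eq_empty, Finset.prod_empty]
    by_cases h : u = w
    · subst h
      simp [Equiv.funUnique]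
    · rw [if_neg h]
      symm
      refine Finset.sum_eq_zero fun x _ => ?_
      rw [if_neg]
      rintro ⟨h1, h2⟩
      exact h (h1.symm.trans h2)
  | succ L ih =>
    intro u w
    rw [pow_succ', Matrix.mul_apply]
    simp only [ih]
    rw [← (Fin.consEquiv (fun _ : Fin (L + 2) => X)).sum_comp, Fintype.sum_prod_type]
    have hL : Fin.last (L + 1) = (Fin.last L).succ := rfl
    calc ∑ v, A u v * ∑ y : Fin (L + 1) → X,
          (if y 0 = v ∧ y (Fin.last L) = w then ∏ i : Fin L, A (y i.castSucc) (y i.succ) else 0)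
        = ∑ y : Fin (L + 1) → X, if y (Fin.last L) = w then
            A u (y 0) * ∏ i : Fin L, A (y i.castSucc) (y i.succ) else 0 := by
          simp only [Finset.mul_sum]
          rw [Finset.sum_comm]
          refine Finset.sum_congr rfl fun y _ => ?_
          rw [Finset.sum_eq_single (y 0)]
          · by_cases h : y (Fin.last L) = w
            · simp [h]
            · simp [h]
          · intro v _ hv
            rw [if_neg, mul_zero]
            rintro ⟨h, _⟩
            exact hv h.symm
          · intro h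
            exact absurd (Finset.mem_univ _) h
      _ = _ := by
          rw [Finset.sum_eq_single u]
          · refine Finset.sum_congr rfl fun y _ => ?_
            have e0 : (Fin.consEquiv (fun _ : Fin (L + 2) => X)) (u, y) 0 = u := rfl
            have e1 : (Fin.consEquiv (fun _ : Fin (L + 2) => X)) (u, y) (Fin.last (L + 1)) =
                y (Fin.last L) := rfl
            have e2 : (∏ i : Fin (L + 1), A
                ((Fin.consEquiv (fun _ : Fin (L + 2) => X)) (u, y) i.castSucc)
                ((Fin.consEquiv (fun _ : Fin (L + 2) => X)) (u, y) i.succ)) =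
                A u (y 0) * ∏ i : Fin L, A (y i.castSucc) (y i.succ) := by
              rw [Fin.prod_univ_succ]
              rfl
            rw [e0, e1, e2]
            by_cases h : y (Fin.last L) = w
            · rw [if_pos h, if_pos ⟨rfl, h⟩]
            · rw [if_neg h, if_neg (fun hh => h hh.2)]
          · intro v _ hv
            refine Finset.sum_eq_zero fun y _ => ?_
            rw [if_neg]
            rintro ⟨h, _⟩
            exact hv (by simpa [Fin.consEquiv] using h)
          · intro h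
            exact absurd (Finset.mem_univ _) h

end Kernel

/-! ### From closed walks to homomorphisms -/

section Walks

variable {r n : ℕ} (H : RGraph r (Fin n))

open Classical in
/-- ordered edges -/
def OEdge (x : Fin r → Fin n) : Prop := Finset.univ.image x ∈ H.edges

/-- all coordinate mixtures of `u` and `w` are edges -/
def Mix (u w : Fin r → Fin n) : Prop :=
  ∀ c : Fin r → Fin 2, OEdge H (fun j => (![u j, w j] : Fin 2 → Fin n) (c j))

/-- all coordinate mixtures of `u`, `z` and `w` are edges -/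
def Mix3 (u z w : Fin r → Fin n) : Prop :=
  ∀ c : Fin r → Fin 3, OEdge H (fun j => (![u j, z j, w j] : Fin 3 → Fin n) (c j))

lemma Mix.symm {u w : Fin r → Fin n} (h : Mix H u w) : Mix H w u := by
  intro c
  have := h (fun j => Fin.rev (c j))
  convert this using 2 with j
  generalize c j = d
  fin_cases d <;> rfl

lemma Mix3.symm {u z w : Fin r → Fin n} (h : Mix3 H u z w) : Mix3 H w z u := by
  intro c
  have := h (fun j => Fin.rev (c j))
  convert this using 2 with j
  generalize c j = d
  fin_cases d <;> rfl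

lemma Mix3.mix {u z w : Fin r → Fin n} (h : Mix3 H u z w) : Mix H u w := by
  intro c
  have := h (fun j => (![0, 2] : Fin 2 → Fin 3) (c j))
  convert this using 2 with j
  generalize c j = d
  fin_cases d <;> rfl

lemma Mix3.left {u z w : Fin r → Fin n} (h : Mix3 H u z w) : Mix H u z := by
  intro c
  have := h (fun j => (![0, 1] : Fin 2 → Fin 3) (c j))
  convert this using 2 with j
  generalize c j = d
  fin_cases d <;> rfl

lemma Mix3.right {u z w : Fin r → Fin n} (h : Mix3 H u z w) : Mix H z w := by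
  intro c
  have := h (fun j => (![1, 2] : Fin 2 → Fin 3) (c j))
  convert this using 2 with j
  generalize c j = d
  fin_cases d <;> rfl

open Classical in
/-- the `0/1` matrix of the relation `Mix` -/
noncomputable def mixMatrix : Matrix (Fin r → Fin n) (Fin r → Fin n) ℝ :=
  fun u w => if Mix H u w then 1 else 0

/-- the sequence read off a closed walk -/
def readSeq {ℓ : ℕ} (hr : 0 < r) (hℓ : 0 < ℓ) (y : Fin (ℓ + 1) → Fin r → Fin n) (q : ℕ) :
    Fin n :=
  y ⟨(q / r) % ℓ, (Nat.mod_lt _ hℓ).trans (Nat.lt_succ_self _)⟩ ⟨q % r, Nat.mod_lt _ hr⟩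

lemma readSeq_mod {ℓ : ℕ} (hr : 0 < r) (hℓ : 0 < ℓ) (y : Fin (ℓ + 1) → Fin r → Fin n) (q : ℕ) :
    readSeq hr hℓ y (q % (r * ℓ)) = readSeq hr hℓ y q := by
  unfold readSeq
  congr 2
  · rw [Nat.mod_mul_right_div_self, Nat.mod_mod]
  · rw [Nat.mod_mul_right_mod]

open Classical in
lemma readSeq_hom {ℓ : ℕ} (hr : 0 < r) (hℓ : 0 < ℓ) (y : Fin (ℓ + 1) → Fin r → Fin n)
    (hcl : y 0 = y (Fin.last ℓ)) (hy : ∀ i : Fin ℓ, Mix H (y i.castSucc) (y i.succ)) :
    ∀ e ∈ (tightCycle r ℓ).edges,
      e.image (fun z : ZMod (r * ℓ) => readSeq hr hℓ y z.val) ∈ H.edges := by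
  have : NeZero (r * ℓ) := ⟨(Nat.mul_pos hr hℓ).ne'⟩
  rintro e ⟨-, i, rfl⟩
  rw [Finset.image_image]
  -- the value at `i + j`
  have hval : ∀ j : ℕ, readSeq hr hℓ y (i + (j : ZMod (r * ℓ))).val =
      readSeq hr hℓ y (i.val + j) := by
    intro j
    rw [ZMod.val_add, readSeq_mod, ZMod.val_natCast, ← readSeq_mod hr hℓ y (i.val + j),
      ← readSeq_mod hr hℓ y (i.val + j % (r * ℓ))]
    congr 1
    exact Nat.add_mod_mod _ _ _
  have hi : i.val < r * ℓ := ZMod.val_lt i
  set a := i.val / r with ha
  set b := i.val % r with hb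
  have haℓ : a < ℓ := Nat.div_lt_of_lt_mul hi
  have hbr : b < r := Nat.mod_lt _ hr
  have hab : i.val = r * a + b := (Nat.div_add_mod _ _).symm
  have hmix := hy ⟨a, haℓ⟩
  set u := y (Fin.castSucc ⟨a, haℓ⟩) with hu
  set w := y (Fin.succ ⟨a, haℓ⟩) with hw
  -- values in the first block
  have hv1 : ∀ j : ℕ, ∀ h : b + j < r, readSeq hr hℓ y (i.val + j) = u ⟨b + j, h⟩ := by
    intro j h
    unfold readSeq
    have e1 : ((i.val + j) / r) % ℓ = a := by
      rw [hab, add_assoc, Nat.mul_add_div hr, Nat.div_eq_of_lt h, add_zero, Nat.mod_eq_of_lt haℓ]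
    have e2 : (i.val + j) % r = b + j := by
      rw [hab, add_assoc, Nat.mul_add_mod, Nat.mod_eq_of_lt h]
    rw [hu]
    congr 1
    · congr 1
    · exact Fin.ext e2
  -- values in the second block
  have hv2 : ∀ j : ℕ, ∀ h : b + j - r < r, r ≤ b + j →
      readSeq hr hℓ y (i.val + j) = w ⟨b + j - r, h⟩ := by
    intro j h hle
    unfold readSeq
    have e0 : i.val + j = r * (a + 1) + (b + j - r) := by
      rw [hab, Nat.mul_add, mul_one]
      omega
    have e1 : (i.val + j) / r = a + 1 := by
      rw [e0, Nat.mul_add_div hr, Nat.div_eq_of_lt h, add_zero]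
    have e2 : (i.val + j) % r = b + j - r := by
      rw [e0, Nat.mul_add_mod, Nat.mod_eq_of_lt h]
    have e3 : y ⟨((i.val + j) / r) % ℓ, (Nat.mod_lt _ hℓ).trans (Nat.lt_succ_self _)⟩ = w := by
      rcases Nat.lt_or_ge (a + 1) ℓ with h1 | h1
      · rw [hw]
        congr 1
        refine Fin.ext ?_
        simp only [Fin.succ_mk]
        rw [e1, Nat.mod_eq_of_lt h1]
      · have h2 : a + 1 = ℓ := by omega
        have : (⟨((i.val + j) / r) % ℓ, (Nat.mod_lt _ hℓ).trans (Nat.lt_succ_self _)⟩ :
            Fin (ℓ + 1)) = 0 := by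
          refine Fin.ext ?_
          simp [e1, h2]
        rw [this, hcl, hw]
        congr 1
        refine Fin.ext ?_
        simp [h2]
    rw [e3]
    congr 1
    exact Fin.ext e2
  have hE := hmix (fun j : Fin r => if j.val < b then 1 else 0)
  unfold OEdge at hE
  convert hE using 1
  ext v
  simp only [Finset.mem_image, Finset.mem_range, Function.comp_apply, Finset.mem_univ, true_and]
  constructor
  · rintro ⟨j, hj, rfl⟩
    rw [hval]
    rcases Nat.lt_or_ge (b + j) r with h | h
    · refine ⟨⟨b + j, h⟩, ?_⟩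
      rw [hv1 j h]
      have : ¬ (b + j < b) := by omega
      simp [this]
    · have h' : b + j - r < r := by omega
      refine ⟨⟨b + j - r, h'⟩, ?_⟩
      rw [hv2 j h' h]
      have : b + j - r < b := by omega
      simp [this]
  · rintro ⟨j', rfl⟩
    by_cases h : j'.val < b
    · refine ⟨j'.val + r - b, by omega, ?_⟩
      rw [hval]
      have e : b + (j'.val + r - b) - r = j'.val := by omega
      have h1 : b + (j'.val + r - b) - r < r := by omega
      rw [hv2 _ h1 (by omega)]
      simp only [h, if_true]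
      simp [e]
    · refine ⟨j'.val - b, by omega, ?_⟩
      rw [hval]
      have e : b + (j'.val - b) = j'.val := by omega
      have h1 : b + (j'.val - b) < r := by omega
      rw [hv1 _ h1]
      simp only [h, if_false]
      simp [e]

lemma readSeq_inj {ℓ : ℕ} (hr : 0 < r) (hℓ : 0 < ℓ) (y y' : Fin (ℓ + 1) → Fin r → Fin n)
    (hcl : y 0 = y (Fin.last ℓ)) (hcl' : y' 0 = y' (Fin.last ℓ))
    (h : (fun z : ZMod (r * ℓ) => readSeq hr hℓ y z.val) =
      (fun z : ZMod (r * ℓ) => readSeq hr hℓ y' z.val)) : y = y' := by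
  have : NeZero (r * ℓ) := ⟨(Nat.mul_pos hr hℓ).ne'⟩
  have hlt : ∀ i : Fin (ℓ + 1), i.val < ℓ → y i = y' i := by
    intro i hi
    funext j
    have hq : r * i.val + j.val < r * ℓ := by
      have h1 : r * i.val + j.val < r * (i.val + 1) := by
        rw [Nat.mul_add, mul_one]
        exact Nat.add_lt_add_left j.isLt _
      exact lt_of_lt_of_le h1 (Nat.mul_le_mul_left r hi)
    have h1 := congrFun h ((r * i.val + j.val : ℕ) : ZMod (r * ℓ))
    simp only [ZMod.val_natCast, readSeq_mod] at h1
    have key : ∀ x : Fin (ℓ + 1) → Fin r → Fin n, readSeq hr hℓ x (r * i.val + j.val) = x i j := by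
      intro x
      unfold readSeq
      have e1 : ((r * i.val + j.val) / r) % ℓ = i.val := by
        rw [Nat.mul_add_div hr, Nat.div_eq_of_lt j.isLt, add_zero, Nat.mod_eq_of_lt hi]
      have e2 : (r * i.val + j.val) % r = j.val := by
        rw [Nat.mul_add_mod, Nat.mod_eq_of_lt j.isLt]
      congr 1
      · congr 1
      · exact Fin.ext e2
    rwa [key, key] at h1
  funext i
  rcases Nat.lt_or_ge i.val ℓ with hi | hi
  · exact hlt i hi
  · have : i = Fin.last ℓ := Fin.ext (by simp; omega)
    rw [this, ← hcl, ← hcl']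
    exact hlt 0 (by simpa using hℓ)

open Classical in
/-- The number of closed walks of length `ℓ` is at most the number of homomorphisms of the
tight cycle. -/
lemma trace_le_hom {ℓ : ℕ} (hr : 0 < r) (hℓ : 0 < ℓ) :
    Matrix.trace (mixMatrix H ^ ℓ) ≤ (hom (tightCycle r ℓ) H : ℝ) := by
  have : NeZero (r * ℓ) := ⟨(Nat.mul_pos hr hℓ).ne'⟩
  let T : Finset (Fin (ℓ + 1) → Fin r → Fin n) := Finset.univ.filter fun y =>
    y 0 = y (Fin.last ℓ) ∧ ∀ i : Fin ℓ, Mix H (y i.castSucc) (y i.succ)
  have h1 : Matrix.trace (mixMatrix H ^ ℓ) = (T.card : ℝ) := by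
    rw [Matrix.trace]
    simp only [Matrix.diag_apply, pow_entry]
    rw [Finset.sum_comm, Finset.card_filter]
    push_cast
    refine Finset.sum_congr rfl fun y _ => ?_
    rw [Finset.sum_eq_single (y 0)]
    · by_cases h : y 0 = y (Fin.last ℓ)
      · rw [if_pos ⟨rfl, h.symm⟩]
        simp only [mixMatrix]
        rw [Finset.prod_ite_zero]
        simp [h]
      · rw [if_neg (fun hh => h hh.2.symm), if_neg (fun hh => h hh.1)]
    · intro u _ hu
      rw [if_neg]
      rintro ⟨h, _⟩
      exact hu h.symm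
    · intro h
      exact absurd (Finset.mem_univ _) h
  rw [h1]
  have hinj : T.card ≤ hom (tightCycle r ℓ) H := by
    unfold hom
    rw [Set.ncard_eq_toFinset_card']
    refine Finset.card_le_card_of_injOn
      (fun y => fun z : ZMod (r * ℓ) => readSeq hr hℓ y z.val) ?_ ?_
    · intro y hy
      have hy' : y ∈ T := hy
      rw [Finset.mem_filter] at hy'
      rw [Set.coe_toFinset]
      intro e he
      have h2 := readSeq_hom H hr hℓ y hy'.2.1 hy'.2.2 e he
      rw [image_inst _ (fun a b => Classical.propDecidable (a = b))] at h2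
      exact h2
    · intro y hy y' hy' h
      have h1 : y ∈ T := hy
      have h2 : y' ∈ T := hy'
      rw [Finset.mem_filter] at h1 h2
      exact readSeq_inj hr hℓ y y' h1.2.1 h2.2.1 h
  exact_mod_cast hinj

end Walks

/-! ### The main inequality -/

section Main

variable {r n : ℕ} (H : RGraph r (Fin n))

open Classical in
/-- indicator of ordered edges -/
noncomputable def ind (x : Fin r → Fin n) : ℝ := if OEdge H x then 1 else 0

lemma ind_nonneg (x : Fin r → Fin n) : 0 ≤ ind H x := by
  unfold ind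
  split_ifs <;> norm_num

lemma ind_le_one (x : Fin r → Fin n) : ind H x ≤ 1 := by
  unfold ind
  split_ifs <;> norm_num

lemma density_singleEdge : density (singleEdge r) H = avg (ind H) := by
  classical
  unfold density avg
  have hset : {φ : Fin r → Fin n | ∀ e ∈ (singleEdge r).edges,
      @Finset.image _ _ (fun a b => Classical.propDecidable (a = b)) φ e ∈ H.edges} =
      ((Finset.univ.filter fun x : Fin r → Fin n => OEdge H x : Finset _) : Set _) := by
    ext φ
    rw [Finset.mem_coe, Finset.mem_filter]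
    constructor
    · intro h
      refine ⟨Finset.mem_univ _, ?_⟩
      have h1 := h Finset.univ (Set.mem_singleton _)
      unfold OEdge
      rw [image_inst _ (fun a b => Classical.propDecidable (a = b))]
      exact h1
    · intro h e he
      have he' : e = Finset.univ := he
      rw [he']
      have h1 := h.2
      unfold OEdge at h1
      rw [image_inst _ (fun a b => Classical.propDecidable (a = b))] at h1
      exact h1
  have h1 : (hom (singleEdge r) H : ℝ) = ∑ x, ind H x := by
    unfold hom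
    rw [hset, Set.ncard_coe_finset, Finset.card_filter]
    push_cast
    refine Finset.sum_congr rfl fun x _ => ?_
    unfold ind
    congr
  rw [h1, Fintype.card_fun, Fintype.card_fin, Fintype.card_fin, Nat.card_eq_fintype_card,
    Nat.card_eq_fintype_card, Fintype.card_fin, Fintype.card_fin]
  push_cast
  rfl

open Classical in
/-- the smoothed kernel -/
noncomputable def smooth : Matrix (Fin r → Fin n) (Fin r → Fin n) ℝ :=
  fun u w => avg (fun z : Fin r → Fin n => if Mix3 H u z w then (1 : ℝ) else 0)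

lemma smooth_nonneg (u w : Fin r → Fin n) : 0 ≤ smooth H u w := by
  classical
  refine avg_nonneg fun z => ?_
  split_ifs <;> norm_num

lemma smooth_symm (u w : Fin r → Fin n) : smooth H u w = smooth H w u := by
  classical
  unfold smooth
  congr 1
  funext z
  have : Mix3 H u z w ↔ Mix3 H w z u := ⟨fun h => h.symm, fun h => h.symm⟩
  simp only [this]

lemma mixMatrix_nonneg (u w : Fin r → Fin n) : 0 ≤ mixMatrix H u w := by
  unfold mixMatrix
  split_ifs <;> norm_num

lemma mixMatrix_symm (u w : Fin r → Fin n) : mixMatrix H u w = mixMatrix H w u := by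
  classical
  unfold mixMatrix
  exact if_congr ⟨fun h => Mix.symm H h, fun h => Mix.symm H h⟩ rfl rfl

lemma smooth_le_mix [Nonempty (Fin r → Fin n)] (u w : Fin r → Fin n) :
    smooth H u w ≤ mixMatrix H u w := by
  classical
  unfold smooth mixMatrix
  by_cases h : Mix H u w
  · rw [if_pos h]
    refine (avg_mono (g := fun _ => (1 : ℝ)) fun z => ?_).trans ?_
    · split_ifs <;> norm_num
    · unfold avg
      have hc : (0 : ℝ) < (Fintype.card (Fin r → Fin n) : ℝ) := by
        exact_mod_cast Fintype.card_pos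
      simp only [Finset.sum_const, Finset.card_univ, nsmul_eq_mul, mul_one]
      exact (div_self hc.ne').le
  · rw [if_neg h]
    unfold avg
    have : ∑ z : Fin r → Fin n, (if Mix3 H u z w then (1 : ℝ) else 0) = 0 := by
      refine Finset.sum_eq_zero fun z _ => ?_
      rw [if_neg]
      intro h3
      exact h (Mix3.mix H h3)
    rw [this, zero_div]

lemma smooth_le_sq [Nonempty (Fin r → Fin n)] (u w : Fin r → Fin n) :
    (Fintype.card (Fin r → Fin n) : ℝ) * smooth H u w ≤ (mixMatrix H ^ 2) u w := by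
  classical
  have hc : (0 : ℝ) < (Fintype.card (Fin r → Fin n) : ℝ) := by
    exact_mod_cast Fintype.card_pos
  unfold smooth avg
  rw [mul_div_cancel₀ _ hc.ne', pow_two, Matrix.mul_apply]
  refine Finset.sum_le_sum fun z _ => ?_
  unfold mixMatrix
  by_cases h : Mix3 H u z w
  · rw [if_pos h, if_pos (Mix3.left H h), if_pos (Mix3.right H h), mul_one]
  · rw [if_neg h]
    split_ifs <;> norm_num

/-- triples of `r`-tuples as `r`-tuples of triples -/
def tripleEquiv (r n : ℕ) : ((Fin r → Fin n) × (Fin r → Fin n) × (Fin r → Fin n)) ≃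
    (Fin r → Fin 3 → Fin n) where
  toFun p := fun j => ![p.1 j, p.2.2 j, p.2.1 j]
  invFun y := (fun j => y j 0, fun j => y j 2, fun j => y j 1)
  left_inv p := rfl
  right_inv y := by
    funext j i
    fin_cases i <;> rfl

/-- pairs of `r`-tuples as `r`-tuples of pairs -/
def pairEquiv (r n : ℕ) : ((Fin r → Fin n) × (Fin r → Fin n)) ≃ (Fin r → Fin 2 → Fin n) where
  toFun p := fun j => ![p.1 j, p.2 j]
  invFun y := (fun j => y j 0, fun j => y j 1)
  left_inv p := rfl
  right_inv y := by
    funext j i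
    fin_cases i <;> rfl

lemma prod_ind {t : ℕ} (y : Fin r → Fin t → Fin n) [Decidable
    (∀ c : Fin r → Fin t, OEdge H (fun j => y j (c j)))] :
    (∏ c : Fin r → Fin t, ind H (fun j => y j (c j))) =
      if ∀ c : Fin r → Fin t, OEdge H (fun j => y j (c j)) then 1 else 0 := by
  classical
  unfold ind
  rw [Finset.prod_ite_zero]
  simp

lemma avg_smooth_ge [Nonempty (Fin n)] :
    density (singleEdge r) H ^ (3 ^ r) ≤ avg (fun u => avg (fun w => smooth H u w)) := by
  classical
  rw [density_singleEdge]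
  refine (blowup 3 r (ind H) (ind_nonneg H)).trans (le_of_eq ?_)
  rw [← avg_equiv (tripleEquiv r n), avg_prod]
  congr 1
  funext u
  rw [avg_prod]
  congr 1
  funext w
  unfold smooth
  congr 1
  funext z
  rw [prod_ind]
  exact if_congr Iff.rfl rfl rfl

lemma avg_mix_ge [Nonempty (Fin n)] :
    density (singleEdge r) H ^ (2 ^ r) ≤ avg (fun u => avg (fun w => mixMatrix H u w)) := by
  classical
  rw [density_singleEdge]
  refine (blowup 2 r (ind H) (ind_nonneg H)).trans (le_of_eq ?_)
  rw [← avg_equiv (pairEquiv r n), avg_prod]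
  congr 1
  funext u
  congr 1
  funext w
  rw [prod_ind]
  exact if_congr Iff.rfl rfl rfl

lemma walk_one_div {X : Type} [Fintype X] [DecidableEq X] [Nonempty X] (S : Matrix X X ℝ) :
    walk S 1 / (Fintype.card X : ℝ) =
      (Fintype.card X : ℝ) * avg (fun u => avg (fun w => S u w)) := by
  have hc : (0 : ℝ) < (Fintype.card X : ℝ) := by exact_mod_cast Fintype.card_pos
  unfold walk avg
  rw [← Finset.sum_div]
  simp only [pow_one]
  field_simp

/-- Even length: `t(C_{rℓ}) ≥ p^{2^r ℓ}`. -/
lemma density_even [Nonempty (Fin n)] (hr : 0 < r) (m : ℕ) (hm : 0 < m) :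
    (density (singleEdge r) H ^ (2 ^ r)) ^ (2 * m) ≤ density (tightCycle r (2 * m)) H := by
  have hn : (0 : ℝ) < (n : ℝ) := by
    have : 0 < Fintype.card (Fin n) := Fintype.card_pos
    rw [Fintype.card_fin] at this
    exact_mod_cast this
  have hX : (Fintype.card (Fin r → Fin n) : ℝ) = (n : ℝ) ^ r := by
    rw [Fintype.card_fun, Fintype.card_fin, Fintype.card_fin]
    push_cast
    rfl
  have hp0 : 0 ≤ density (singleEdge r) H := by
    rw [density_singleEdge]
    exact avg_nonneg (ind_nonneg H)
  have h1 := trace_le_hom H hr (ℓ := 2 * m) (by omega)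
  have h2 := trace_ge (S := mixMatrix H) (mixMatrix_nonneg H) (mixMatrix_symm H) m
  rw [walk_one_div, hX] at h2
  have h3 : ((n : ℝ) ^ r * density (singleEdge r) H ^ (2 ^ r)) ^ (2 * m) ≤
      ((n : ℝ) ^ r * avg (fun u => avg (fun w => mixMatrix H u w))) ^ (2 * m) := by
    refine pow_le_pow_left₀ (by positivity) ?_ _
    exact mul_le_mul_of_nonneg_left (avg_mix_ge H) (by positivity)
  have hden : density (tightCycle r (2 * m)) H =
      (hom (tightCycle r (2 * m)) H : ℝ) / (n : ℝ) ^ (r * (2 * m)) := by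
    unfold density
    rw [Nat.card_zmod, Nat.card_eq_fintype_card (α := Fin n), Fintype.card_fin]
  rw [hden, le_div_iff₀ (by positivity)]
  have h4 : ((n : ℝ) ^ r * density (singleEdge r) H ^ (2 ^ r)) ^ (2 * m) =
      (density (singleEdge r) H ^ (2 ^ r)) ^ (2 * m) * (n : ℝ) ^ (r * (2 * m)) := by
    rw [mul_pow, ← pow_mul (n : ℝ), mul_comm]
  rw [← h4]
  exact h3.trans (h2.trans h1)

/-- All lengths: `t(C_{rℓ}) ≥ p^{3^r · 2⌊ℓ/2⌋}`. -/
lemma density_all [Nonempty (Fin n)] (hr : 0 < r) (ℓ : ℕ) (hℓ : 2 ≤ ℓ) :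
    (density (singleEdge r) H ^ (3 ^ r)) ^ (2 * (ℓ / 2)) ≤ density (tightCycle r ℓ) H := by
  have hn : (0 : ℝ) < (n : ℝ) := by
    have : 0 < Fintype.card (Fin n) := Fintype.card_pos
    rw [Fintype.card_fin] at this
    exact_mod_cast this
  have hX : (Fintype.card (Fin r → Fin n) : ℝ) = (n : ℝ) ^ r := by
    rw [Fintype.card_fun, Fintype.card_fin, Fintype.card_fin]
    push_cast
    rfl
  have hp0 : 0 ≤ density (singleEdge r) H := by
    rw [density_singleEdge]
    exact avg_nonneg (ind_nonneg H)
  set m := ℓ / 2 with hm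
  have hm1 : 1 ≤ m := by omega
  have h1 := trace_le_hom H hr (ℓ := ℓ) (by omega)
  have h2 := trace_ge (S := smooth H) (smooth_nonneg H) (smooth_symm H) m
  rw [walk_one_div, hX] at h2
  have h3 : ((n : ℝ) ^ r * density (singleEdge r) H ^ (3 ^ r)) ^ (2 * m) ≤
      ((n : ℝ) ^ r * avg (fun u => avg (fun w => smooth H u w))) ^ (2 * m) := by
    refine pow_le_pow_left₀ (by positivity) ?_ _
    exact mul_le_mul_of_nonneg_left (avg_smooth_ge H) (by positivity)
  have h4 := h3.trans h2
  -- compare the trace of the smoothed kernel with that of the mixture matrix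
  have h5 : Matrix.trace (smooth H ^ (2 * m)) * (n : ℝ) ^ (r * (ℓ - 2 * m)) ≤
      Matrix.trace (mixMatrix H ^ ℓ) := by
    rcases Nat.even_or_odd' ℓ with ⟨k, hk | hk⟩
    · have hk' : ℓ = 2 * m := by omega
      rw [← hk', Nat.sub_self, mul_zero, pow_zero, mul_one]
      unfold Matrix.trace
      refine Finset.sum_le_sum fun u _ => ?_
      exact pow_mono_entry (smooth_nonneg H) (smooth_le_mix H) ℓ u u
    · have hk' : ℓ - 2 * m = 1 := by omega
      have hk2 : ℓ = (2 * m - 1) + 2 := by omega
      have hk3 : 2 * m = (2 * m - 1) + 1 := by omega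
      rw [hk', mul_one, hk2, pow_add, hk3, pow_succ, ← hk3, ← hX]
      unfold Matrix.trace
      rw [Finset.sum_mul]
      refine Finset.sum_le_sum fun u _ => ?_
      rw [Matrix.diag_apply, Matrix.diag_apply]
      have h6 := mul_mono_entry (A := smooth H ^ (2 * m - 1)) (B := mixMatrix H ^ (2 * m - 1))
        (C := (Fintype.card (Fin r → Fin n) : ℝ) • smooth H) (D := mixMatrix H ^ 2)
        (pow_nonneg_entry (smooth_nonneg H) _)
        (fun x y => by
          rw [Matrix.smul_apply, smul_eq_mul]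
          exact mul_nonneg (Nat.cast_nonneg _) (smooth_nonneg H x y))
        (pow_mono_entry (smooth_nonneg H) (smooth_le_mix H) _)
        (fun x y => by
          rw [Matrix.smul_apply, smul_eq_mul]
          exact smooth_le_sq H x y) u u
      rw [Matrix.mul_smul, Matrix.smul_apply, smul_eq_mul, mul_comm] at h6
      exact h6
  have hden : density (tightCycle r ℓ) H =
      (hom (tightCycle r ℓ) H : ℝ) / (n : ℝ) ^ (r * ℓ) := by
    unfold density
    rw [Nat.card_zmod, Nat.card_eq_fintype_card (α := Fin n), Fintype.card_fin]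
  rw [hden, le_div_iff₀ (by positivity)]
  have h7 : (density (singleEdge r) H ^ (3 ^ r)) ^ (2 * m) * (n : ℝ) ^ (r * ℓ) =
      ((n : ℝ) ^ r * density (singleEdge r) H ^ (3 ^ r)) ^ (2 * m) *
        (n : ℝ) ^ (r * (ℓ - 2 * m)) := by
    have e : r * ℓ = r * (2 * m) + r * (ℓ - 2 * m) := by
      rw [← Nat.mul_add]
      congr 1
      omega
    rw [mul_pow ((n : ℝ) ^ r), ← pow_mul (n : ℝ) r (2 * m), e, pow_add]
    ring
  rw [h7]
  exact (mul_le_mul_of_nonneg_right h4 (by positivity)).trans (h5.trans h1)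

end Main

/-! ### Consequences for the Sidorenko exponent -/

/-- For `r ≥ 2` the edge density is strictly less than one. -/
lemma density_singleEdge_lt_one {r n : ℕ} (hr : 2 ≤ r) (H : RGraph r (Fin n)) :
    density (singleEdge r) H < 1 := by
  rcases Nat.eq_zero_or_pos n with hn | hn
  · subst hn
    unfold density
    have : Nat.card (Fin r) = r := by simp
    rw [this]
    have h0 : ((Nat.card (Fin 0) : ℕ) : ℝ) ^ r = 0 := by
      simp
      omega
    rw [h0, div_zero]
    norm_num
  · rw [density_singleEdge]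
    have : Nonempty (Fin n) := ⟨⟨0, hn⟩⟩
    have hX : (0 : ℝ) < (Fintype.card (Fin r → Fin n) : ℝ) := by
      exact_mod_cast Fintype.card_pos
    unfold avg
    rw [div_lt_one hX]
    have h1 : ∑ x : Fin r → Fin n, ind H x < ∑ _x : Fin r → Fin n, (1 : ℝ) := by
      refine Finset.sum_lt_sum (fun x _ => ind_le_one H x)
        ⟨fun _ => ⟨0, hn⟩, Finset.mem_univ _, ?_⟩
      unfold ind
      rw [if_neg]
      · norm_num
      · intro h
        have hc := H.uniform _ h
        have h2 : (Finset.univ.image (fun _ : Fin r => (⟨0, hn⟩ : Fin n))).card ≤ 1 := by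
          refine (Finset.card_le_card (t := {(⟨0, hn⟩ : Fin n)}) ?_).trans (by simp)
          intro v hv
          rw [Finset.mem_image] at hv
          obtain ⟨_, _, rfl⟩ := hv
          simp
        omega
    simpa using h1

lemma density_singleEdge_nonneg {r n : ℕ} (H : RGraph r (Fin n)) :
    0 ≤ density (singleEdge r) H := by
  rw [density_singleEdge]
  exact avg_nonneg (ind_nonneg H)

/-- If `t_F(H) ≥ p^E` for all nonempty `H`, then every `s` in the exponent set is at most `E`. -/
lemma exponent_le {r : ℕ} {V : Type} (F : RGraph r V) (hr : 2 ≤ r) [Nonempty V] [Finite V]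
    (E : ℕ)
    (hE : ∀ (n : ℕ) (H : RGraph r (Fin n)), 0 < n →
      density (singleEdge r) H ^ E ≤ density F H) :
    sidorenkoExponent F ≤ ((E : ℝ) : EReal) := by
  unfold sidorenkoExponent
  refine sSup_le ?_
  rintro _ ⟨s, ⟨hs0, n, H, heq, hpos⟩, rfl⟩
  refine EReal.coe_le_coe_iff.mpr ?_
  rcases hs0.eq_or_lt with h0 | h0
  · rw [← h0]
    exact Nat.cast_nonneg _
  have hn : 0 < n := by
    rcases Nat.eq_zero_or_pos n with hn | hn
    · exfalso
      subst hn
      unfold density at hpos
      have h1 : Nat.card V ≠ 0 := Nat.card_ne_zero.mpr ⟨inferInstance, inferInstance⟩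
      have h2 : ((Nat.card (Fin 0) : ℕ) : ℝ) ^ Nat.card V = 0 := by
        simp [h1]
      rw [h2, div_zero] at hpos
      exact lt_irrefl _ hpos
    · exact hn
  have hp0 := density_singleEdge_nonneg H
  have hp1 := density_singleEdge_lt_one hr H
  have hppos : 0 < density (singleEdge r) H := by
    rcases hp0.eq_or_lt with h | h
    · exfalso
      rw [← h, Real.zero_rpow h0.ne'] at heq
      rw [heq] at hpos
      exact lt_irrefl _ hpos
    · exact h
  have h1 := hE n H hn
  rw [heq, ← Real.rpow_natCast] at h1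
  exact (Real.rpow_le_rpow_left_iff_of_base_lt_one hppos hp1).mp h1

/-- Even `ℓ`: `s(C^{(r)}_{rℓ}) ≤ 2^r ℓ`. (Not needed for `result`.) -/
theorem exponent_even (r ℓ : ℕ) (hr : 2 ≤ r) (hℓ : 2 ≤ ℓ) (hev : Even ℓ) :
    sidorenkoExponent (tightCycle r ℓ) ≤ ((2 ^ r * (ℓ : ℝ) : ℝ) : EReal) := by
  obtain ⟨m, hm⟩ := hev
  have hm' : ℓ = 2 * m := by omega
  have hmpos : 0 < m := by omega
  have h0 : NeZero (r * ℓ) := ⟨(Nat.mul_pos (by omega) (by omega)).ne'⟩
  have h1 : sidorenkoExponent (tightCycle r ℓ) ≤ (((2 ^ r * ℓ : ℕ) : ℝ) : EReal) := by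
    refine exponent_le (tightCycle r ℓ) hr _ fun n H hn => ?_
    have : Nonempty (Fin n) := ⟨⟨0, hn⟩⟩
    rw [pow_mul]
    subst hm'
    exact density_even H (by omega) m hmpos
  refine h1.trans (le_of_eq ?_)
  push_cast
  rfl

/-- All `ℓ ≥ 2`: `s(C^{(r)}_{rℓ}) ≤ 3^r · 2⌊ℓ/2⌋`. -/
theorem exponent_all (r ℓ : ℕ) (hr : 2 ≤ r) (hℓ : 2 ≤ ℓ) :
    sidorenkoExponent (tightCycle r ℓ) ≤ (((3 ^ r * (2 * (ℓ / 2)) : ℕ) : ℝ) : EReal) := by
  have : NeZero (r * ℓ) := ⟨(Nat.mul_pos (by omega) (by omega)).ne'⟩
  refine exponent_le (tightCycle r ℓ) hr _ fun n H hn => ?_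
  have : Nonempty (Fin n) := ⟨⟨0, hn⟩⟩
  rw [pow_mul]
  exact density_all H (by omega) ℓ hℓ

/-- Sanity check (not needed for `result`): the set whose supremum is the Sidorenko exponent of
the tight cycle is nonempty, so that this supremum is not a degenerate one. -/
theorem exponentSet_nonempty (r ℓ : ℕ) (hr : 2 ≤ r) (hℓ : 2 ≤ ℓ) :
    (exponentSet (tightCycle r ℓ)).Nonempty := by
  classical
  have h0 : NeZero (r * ℓ) := ⟨(Nat.mul_pos (by omega) (by omega)).ne'⟩
  have hne : Nonempty (Fin r) := ⟨⟨0, by omega⟩⟩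
  set H : RGraph r (Fin r) := singleEdge r with hH
  have hppos : 0 < density (singleEdge r) H := by
    rw [density_singleEdge]
    unfold avg
    have hX : (0 : ℝ) < (Fintype.card (Fin r → Fin r) : ℝ) := by
      exact_mod_cast Fintype.card_pos
    refine div_pos ?_ hX
    refine Finset.sum_pos' (fun x _ => ind_nonneg H x) ⟨id, Finset.mem_univ _, ?_⟩
    unfold ind
    rw [if_pos]
    · norm_num
    · unfold OEdge
      rw [Finset.image_id]
      exact Set.mem_singleton _
  have hp1 := density_singleEdge_lt_one hr H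
  have hlow := density_all H (by omega) ℓ hℓ
  have hpos : 0 < density (tightCycle r ℓ) H := lt_of_lt_of_le (by positivity) hlow
  have hle : density (tightCycle r ℓ) H ≤ 1 := by
    unfold density
    refine div_le_one_of_le₀ ?_ (by positivity)
    have h1 : hom (tightCycle r ℓ) H ≤ Nat.card (Fin r) ^ Nat.card (ZMod (r * ℓ)) := by
      unfold hom
      rw [← Nat.card_fun, ← Set.ncard_univ]
      exact Set.ncard_le_ncard (Set.subset_univ _) (Set.toFinite _)
    exact_mod_cast h1
  refine ⟨Real.logb (density (singleEdge r) H) (density (tightCycle r ℓ) H), ?_, r, H, ?_, hpos⟩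
  · exact Real.logb_nonneg_of_base_lt_one hppos hp1 hpos hle
  · rw [Real.rpow_logb hppos hp1.ne hpos]

/-- **Main result.** For every `r ≥ 4` there is a constant `K_r` (namely `K_r = 3^r / r`),
depending only on `r`, with `s(C^{(r)}_{rℓ}) ≤ K_r · r ℓ` for all `ℓ ≥ 2`. -/
theorem result : ∀ r : ℕ, 4 ≤ r → ∃ K : ℝ, K = 3 ^ r / r ∧ ∀ ℓ : ℕ, 2 ≤ ℓ →
    sidorenkoExponent (tightCycle r ℓ) ≤ ((K * ((r : ℝ) * (ℓ : ℝ)) : ℝ) : EReal) := by
  intro r hr
  refine ⟨3 ^ r / r, rfl, fun ℓ hℓ => ?_⟩
  refine (exponent_all r ℓ (by omega) hℓ).trans ?_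
  refine EReal.coe_le_coe_iff.mpr ?_
  have hr0 : (0 : ℝ) < (r : ℝ) := by
    have : 0 < r := by omega
    exact_mod_cast this
  have h1 : (3 : ℝ) ^ r / r * ((r : ℝ) * (ℓ : ℝ)) = 3 ^ r * (ℓ : ℝ) := by
    field_simp
  rw [h1]
  push_cast
  refine mul_le_mul_of_nonneg_left ?_ (by positivity)
  have h2 : 2 * (ℓ / 2) ≤ ℓ := Nat.mul_div_le ℓ 2
  exact_mod_cast h2

end Pool.Agent.Results.MP_c1a6cd_co.TightCycleLinear
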